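import Pool.Agent.Lib.MP_7ab245_nt.QS.Defs
import Pool.Agent.Lib.MP_7ab245_nt.Cnt.AvA

/-!
QS-Avk: the averaged Wronskian identity.

PROOF. Sum the identity over `f' ∈ cls (k+1) f` and `g' ∈ cls k f` and divide by the cardinalities; `a k f' = a k f`.
-/

set_option autoImplicit false

open Finset

namespace Pool.Agent.Lib.MP_7ab245_nt.QS

open Pool.Agent.Lib.MP_7ab245_nt.LogVar Pool.Agent.Lib.MP_7ab245_nt.Cnt
open Pool.Agent.Lib.MP_7ab245_nt.QC

variable {ι : Type} [Fintype ι]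

theorem avk (a : ℕ → ι → ℤ) (b s : ℕ → ι → ℂ) (m : ι → ℂ) (c : ℂ) (k : ℕ) (hk : 1 ≤ k)
    (h : ∀ f g, (∀ j < k, a j f = a j g) →
      ∑ i ∈ range (k + 1), (s i f * b (k - i) g - b (k - i) f * s i g) =
        (k : ℂ) * c * m f * m g * ((a k f : ℂ) - (a k g : ℂ))) (f : ι) :
    WW a b s k f = c * av a (k + 1) m f *
      ((a k f : ℂ) * av a k m f - av a k (fun g => (a k g : ℂ) * m g) f) := by
  set A := cls a (k + 1) f with hA
  set B := cls a k f with hB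
  have hAc : ((A.card : ℕ) : ℂ) ≠ 0 := by
    have := card_cls_pos a (k + 1) f
    exact_mod_cast this.ne'
  have hBc : ((B.card : ℕ) : ℂ) ≠ 0 := by
    have := card_cls_pos a k f
    exact_mod_cast this.ne'
  have hk0 : (k : ℂ) ≠ 0 := by exact_mod_cast (by omega : k ≠ 0)
  have h1 : ∀ f' ∈ A, ∀ g' ∈ B,
      ∑ i ∈ range (k + 1), (s i f' * b (k - i) g' - b (k - i) f' * s i g') =
        (k : ℂ) * c * m f' * m g' * ((a k f : ℂ) - (a k g' : ℂ)) := by
    intro f' hf' g' hg'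
    rw [hA, mem_cls] at hf'
    rw [hB, mem_cls] at hg'
    rw [h f' g' (fun j hj => by rw [hf' j (by omega), hg' j hj]), hf' k (by omega)]
  have h2 : ∑ f' ∈ A, ∑ g' ∈ B,
      ∑ i ∈ range (k + 1), (s i f' * b (k - i) g' - b (k - i) f' * s i g') =
      ∑ i ∈ range (k + 1), ((∑ f' ∈ A, s i f') * (∑ g' ∈ B, b (k - i) g') -
        (∑ f' ∈ A, b (k - i) f') * (∑ g' ∈ B, s i g')) := by
    have e1 : ∀ f' ∈ A, ∑ g' ∈ B,
        ∑ i ∈ range (k + 1), (s i f' * b (k - i) g' - b (k - i) f' * s i g') =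
        ∑ i ∈ range (k + 1), (s i f' * (∑ g' ∈ B, b (k - i) g') -
          b (k - i) f' * (∑ g' ∈ B, s i g')) := by
      intro f' _
      rw [sum_comm]
      refine sum_congr rfl fun i _ => ?_
      rw [sum_sub_distrib, mul_sum, mul_sum]
    rw [sum_congr rfl e1, sum_comm]
    refine sum_congr rfl fun i _ => ?_
    rw [sum_sub_distrib, sum_mul, sum_mul]
  have h3 : ∑ f' ∈ A, ∑ g' ∈ B, (k : ℂ) * c * m f' * m g' * ((a k f : ℂ) - (a k g' : ℂ)) =
      (k : ℂ) * (c * (∑ f' ∈ A, m f') * ((a k f : ℂ) * (∑ g' ∈ B, m g') -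
        ∑ g' ∈ B, (a k g' : ℂ) * m g')) := by
    have e1 : ∀ f' ∈ A, ∑ g' ∈ B, (k : ℂ) * c * m f' * m g' * ((a k f : ℂ) - (a k g' : ℂ)) =
        m f' * ((k : ℂ) * c * ((a k f : ℂ) * (∑ g' ∈ B, m g') -
        ∑ g' ∈ B, (a k g' : ℂ) * m g')) := by
      intro f' _
      rw [mul_sum, ← sum_sub_distrib, mul_sum, mul_sum]
      refine sum_congr rfl fun g' _ => ?_
      ring
    rw [sum_congr rfl e1, ← sum_mul]
    ring
  have h4 : ∑ i ∈ range (k + 1), ((∑ f' ∈ A, s i f') * (∑ g' ∈ B, b (k - i) g') -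
        (∑ f' ∈ A, b (k - i) f') * (∑ g' ∈ B, s i g')) =
      (k : ℂ) * (c * (∑ f' ∈ A, m f') * ((a k f : ℂ) * (∑ g' ∈ B, m g') -
        ∑ g' ∈ B, (a k g' : ℂ) * m g')) := by
    rw [← h2, ← h3]
    exact sum_congr rfl fun f' hf' => sum_congr rfl fun g' hg' => h1 f' hf' g' hg'
  have h5 : ∑ i ∈ range (k + 1), (av a (k + 1) (s i) f * av a k (b (k - i)) f -
    av a (k + 1) (b (k - i)) f * av a k (s i) f) =
      (∑ i ∈ range (k + 1), ((∑ f' ∈ A, s i f') * (∑ g' ∈ B, b (k - i) g') -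
        (∑ f' ∈ A, b (k - i) f') * (∑ g' ∈ B, s i g'))) / ((A.card : ℂ) * (B.card : ℂ)) := by
    rw [sum_div]
    refine sum_congr rfl fun i _ => ?_
    unfold av
    rw [← hA, ← hB]
    field_simp
  unfold WW
  rw [h5, h4]
  unfold av
  rw [← hA, ← hB]
  field_simp

end Pool.Agent.Lib.MP_7ab245_nt.QS
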