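import Mathlib
import Pool.Agent.Lib.MP_7ab245_nt.QC.Defs

/-!
QS: sharp count of integer polynomials by Mahler measure and mean of `|log |f||`: definitions. Do not edit.
-/

set_option autoImplicit false

open Finset

namespace Pool.Agent.Lib.MP_7ab245_nt.QS

open Pool.Agent.Lib.MP_7ab245_nt.LogVar Pool.Agent.Lib.MP_7ab245_nt.Cnt
open Pool.Agent.Lib.MP_7ab245_nt.QC

/-- weighted energy -/
noncomputable def we (n : ℕ) (a : PowerSeries ℂ) : ℝ :=
  ∑ i ∈ Icc 1 n, ‖PowerSeries.coeff i a‖ ^ 2 / (i : ℝ) ^ 2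

/-- `X a'` -/
noncomputable def xd (a : PowerSeries ℂ) : PowerSeries ℂ :=
  PowerSeries.X * PowerSeries.derivative ℂ a

/-- Herglotz sum `∑ w_t (1 + conj z_t X) / (1 - conj z_t X)` -/
noncomputable def hz (N : ℕ) (z : ℕ → ℂ) (w : ℕ → ℝ) : PowerSeries ℂ :=
  PowerSeries.mk fun l => if l = 0 then ∑ t ∈ range N, (w t : ℂ)
    else 2 * ∑ t ∈ range N, (w t : ℂ) * (starRingEnd ℂ) (z t) ^ l

/-- `1 / (1 + ε h)` -/
noncomputable def ph (N : ℕ) (z : ℕ → ℂ) (w : ℕ → ℝ) (ε : ℝ) : PowerSeries ℂ :=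
  (1 + PowerSeries.C (ε : ℂ) * hz N z w)⁻¹

/-- the weights of the positive and the negative part of `U` at the roots of unity, `N = 5 n` -/
noncomputable def wp (n : ℕ) (f : Polynomial ℤ) (t : ℕ) : ℝ :=
  max (ut n (zg (5 * n) t) f) 0 / (5 * n : ℕ)
noncomputable def wm (n : ℕ) (f : Polynomial ℤ) (t : ℕ) : ℝ :=
  max (-(ut n (zg (5 * n) t) f)) 0 / (5 * n : ℕ)

/-- the damping factor -/
noncomputable def om (n : ℕ) (ε : ℝ) (f : Polynomial ℤ) : PowerSeries ℂ :=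
  ph (5 * n) (zg (5 * n)) (wp n f) ε ^ 2 * ph (5 * n) (zg (5 * n)) (wm n f) ε ^ 2

/-- its constant coefficient -/
noncomputable def om0 (n : ℕ) (ε : ℝ) (f : Polynomial ℤ) : ℝ :=
  ((1 + ε * ∑ t ∈ range (5 * n), wp n f t)⁻¹) ^ 2 * ((1 + ε * ∑ t ∈ range (5 * n), wm n f t)⁻¹) ^ 2

/-- the damped normalised Blaschke product -/
noncomputable def be (n : ℕ) (ε : ℝ) (f : Polynomial ℤ) : PowerSeries ℂ :=
  PowerSeries.C (kk (cx f) / (MM f : ℂ)) * (om n ε f * bb (cx f))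

/-- its product with the logarithmic derivative -/
noncomputable def sf (n : ℕ) (ε : ℝ) (f : Polynomial ℤ) : PowerSeries ℂ :=
  be n ε f * ld ((cx f : Polynomial ℂ) : PowerSeries ℂ)

/-- the normalised constant coefficient -/
noncomputable def mt (n : ℕ) (ε : ℝ) (f : Polynomial ℤ) : ℝ := om0 n ε f / MM f

section avg

variable {ι : Type} [Fintype ι]

/-- the averaged bilinear expression -/
noncomputable def WW (a : ℕ → ι → ℤ) (b s : ℕ → ι → ℂ) (k : ℕ) (f : ι) : ℂ :=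
  (∑ i ∈ range (k + 1), (av a (k + 1) (s i) f * av a k (b (k - i)) f -
    av a (k + 1) (b (k - i)) f * av a k (s i) f)) / k

end avg

end Pool.Agent.Lib.MP_7ab245_nt.QS
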