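import Pool.Agent.Lib.MP_7ab245_nt.QS.Pos

/-!
QS-Der: the energy of `φ² X h'`, `φ = 1/(1 + ε h)`.

PROOF. `X φ' = -ε φ² X h'` (derivative_inv'), so `we (φ² X h') = ε⁻² we (X φ') ≤ ε⁻² (1 - φ_0²)` (we_xd_le), `φ_0 = 1/(1 + ε λ)`, `1 - φ_0² ≤ 2 ε λ`.
-/

set_option autoImplicit false

open Finset

namespace Pool.Agent.Lib.MP_7ab245_nt.QS

open Pool.Agent.Lib.MP_7ab245_nt.LogVar Pool.Agent.Lib.MP_7ab245_nt.Cnt
open Pool.Agent.Lib.MP_7ab245_nt.QC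

theorem xd_ph (N : ℕ) (z : ℕ → ℂ) (w : ℕ → ℝ) (ε : ℝ) :
    xd (ph N z w ε) = PowerSeries.C (-(ε : ℂ)) * (ph N z w ε ^ 2 * xd (hz N z w)) := by
  unfold xd ph
  rw [PowerSeries.derivative_inv']
  have h1 : PowerSeries.derivative ℂ (1 + PowerSeries.C (ε : ℂ) * hz N z w) =
      PowerSeries.C (ε : ℂ) * PowerSeries.derivative ℂ (hz N z w) := by
    ext n
    rw [PowerSeries.coeff_derivative, map_add, PowerSeries.coeff_C_mul, PowerSeries.coeff_C_mul,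
      PowerSeries.coeff_derivative, PowerSeries.coeff_one, if_neg (by omega)]
    ring
  rw [h1, map_neg]
  ring

theorem we_ph (N : ℕ) (z : ℕ → ℂ) (hz1 : ∀ t < N, ‖z t‖ = 1) (w : ℕ → ℝ) (hw : ∀ t < N, 0 ≤ w t)
    (ε : ℝ) (hε : 0 < ε) (n : ℕ) :
    we n (ph N z w ε ^ 2 * xd (hz N z w)) ≤ 2 * (∑ t ∈ range N, w t) / ε := by
  set l := ∑ t ∈ range N, w t with hl
  have hl0 : 0 ≤ l := sum_nonneg fun t ht => hw t (mem_range.mp ht)
  have h1 := we_xd_le (PC_ph N z hz1 w hw ε hε.le) n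
  rw [xd_ph, we_smul, ph_coeff_zero, Complex.norm_real, norm_neg, Complex.norm_real,
    Real.norm_eq_abs, Real.norm_eq_abs, sq_abs, sq_abs, ← hl] at h1
  have h2 : 1 - ((1 + ε * l)⁻¹) ^ 2 ≤ 2 * ε * l := by
    have hx : 0 ≤ ε * l := mul_nonneg hε.le hl0
    set x := ε * l with hxdef
    have h3 : 1 - 2 * x ≤ ((1 + x)⁻¹) ^ 2 := by
      rw [inv_pow, ← one_div, le_div_iff₀ (by positivity)]
      nlinarith [mul_nonneg hx hx, mul_nonneg (mul_nonneg hx hx) hx]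
    nlinarith
  rw [le_div_iff₀ hε]
  have h4 : ε ^ 2 * we n (ph N z w ε ^ 2 * xd (hz N z w)) ≤ ε * (2 * l) := by linarith
  have h5 : ε * (ε * we n (ph N z w ε ^ 2 * xd (hz N z w))) ≤ ε * (2 * l) := by
    calc ε * (ε * we n (ph N z w ε ^ 2 * xd (hz N z w))) =
        ε ^ 2 * we n (ph N z w ε ^ 2 * xd (hz N z w)) := by ring
      _ ≤ _ := h4
  have h6 := le_of_mul_le_mul_left h5 hε
  linarith

end Pool.Agent.Lib.MP_7ab245_nt.QS
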