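import Pool.Agent.Lib.MP_7ab245_nt.QS.Defs
import Pool.Agent.Lib.MP_7ab245_nt.Cnt.AvB

/-!
QS-Sum: the sum of the squares of the averaged bilinear expressions.

PROOF. The terms with both averages of level `k` cancel: `k W_k = ∑_i (D S_i · E β_{k-i} - D β_{k-i} · E S_i)`, `D = E_{k+1} - E_k`. Cauchy–Schwarz, `1/k² ≤ 1/i²` for `1 ≤ i ≤ k`,
`sum_av_sq_le` and `av_incr_sum`.
-/

set_option autoImplicit false

open Finset

namespace Pool.Agent.Lib.MP_7ab245_nt.QS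

open Pool.Agent.Lib.MP_7ab245_nt.LogVar Pool.Agent.Lib.MP_7ab245_nt.Cnt
open Pool.Agent.Lib.MP_7ab245_nt.QC

variable {ι : Type} [Fintype ι]

private theorem Sum_cs (S : Finset ℕ) (x y : ℕ → ℂ) :
    ‖∑ i ∈ S, x i * y i‖ ^ 2 ≤ (∑ i ∈ S, ‖x i‖ ^ 2) * ∑ i ∈ S, ‖y i‖ ^ 2 := by
  have h1 : ‖∑ i ∈ S, x i * y i‖ ≤ ∑ i ∈ S, ‖x i‖ * ‖y i‖ := by
    refine (norm_sum_le _ _).trans (le_of_eq ?_)
    exact sum_congr rfl fun i _ => norm_mul _ _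
  exact (pow_le_pow_left₀ (norm_nonneg _) h1 2).trans (sum_mul_sq_le_sq_mul_sq _ _ _)

private theorem Sum_two (x y : ℂ) : ‖x - y‖ ^ 2 ≤ 2 * ‖x‖ ^ 2 + 2 * ‖y‖ ^ 2 := by
  have h := norm_sub_le x y
  have h2 : ‖x - y‖ ^ 2 ≤ (‖x‖ + ‖y‖) ^ 2 := pow_le_pow_left₀ (norm_nonneg _) h 2
  nlinarith [sq_nonneg (‖x‖ - ‖y‖)]

/-- pointwise bound -/
theorem WW_le (a : ℕ → ι → ℤ) (b s : ℕ → ι → ℂ) (n : ℕ) (σ : ℝ)
    (hb : ∀ f, ∑ j ∈ range (n + 1), ‖b j f‖ ^ 2 ≤ 1)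
    (hs : ∀ f, ∑ i ∈ Icc 1 n, ‖s i f / (i : ℂ)‖ ^ 2 ≤ σ) (hs0 : ∀ f, s 0 f = 0)
    (k : ℕ) (hk : 1 ≤ k) (hkn : k ≤ n) (f : ι) :
    ‖WW a b s k f‖ ^ 2 ≤
      2 * ∑ i ∈ Icc 1 n, ‖av a (k + 1) (fun g => s i g / (i : ℂ)) f -
        av a k (fun g => s i g / (i : ℂ)) f‖ ^ 2 +
      2 * σ * ∑ j ∈ range (n + 1), ‖av a (k + 1) (b j) f - av a k (b j) f‖ ^ 2 := by
  have hk0 : (k : ℂ) ≠ 0 := by exact_mod_cast (by omega : k ≠ 0)
  have hkr : (0 : ℝ) < (k : ℝ) := by exact_mod_cast hk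
  set X : ℕ → ℂ := fun i => (av a (k + 1) (s i) f - av a k (s i) f) / k with hX
  set Y : ℕ → ℂ := fun i => av a k (b (k - i)) f with hY
  set Z : ℕ → ℂ := fun i => av a (k + 1) (b (k - i)) f - av a k (b (k - i)) f with hZ
  set V : ℕ → ℂ := fun i => av a k (s i) f / k with hV
  have e1 : WW a b s k f = ∑ i ∈ range (k + 1), X i * Y i - ∑ i ∈ range (k + 1), Z i * V i := by
    unfold WW
    rw [sum_div, ← sum_sub_distrib]
    refine sum_congr rfl fun i _ => ?_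
    simp only [hX, hY, hZ, hV]
    field_simp
    ring
  have av0 : ∀ l, av a l (s 0) f = 0 := by
    intro l
    unfold av
    rw [sum_eq_zero fun g _ => hs0 g, zero_div]
  have avd : ∀ l i, av a l (fun g => s i g / (i : ℂ)) f = av a l (s i) f / (i : ℂ) := by
    intro l i
    unfold av
    rw [← sum_div, div_right_comm]
  -- reflection of the range
  have hY1 : ∑ i ∈ range (k + 1), ‖Y i‖ ^ 2 ≤ 1 := by
    have : ∑ i ∈ range (k + 1), ‖Y i‖ ^ 2 = ∑ j ∈ range (k + 1), ‖av a k (b j) f‖ ^ 2 := by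
      rw [← sum_range_reflect (fun j => ‖av a k (b j) f‖ ^ 2) (k + 1)]
      refine sum_congr rfl fun i _ => ?_
      simp only [hY]
      congr 4
    rw [this]
    refine le_trans (sum_le_sum_of_subset_of_nonneg (t := range (n + 1)) ?_ ?_) ?_
    · exact range_subset_range.mpr (by omega)
    · intro i _ _; positivity
    · exact sum_av_sq_le a (range (n + 1)) b 1 hb f
  have hZ1 : ∑ i ∈ range (k + 1), ‖Z i‖ ^ 2 ≤
      ∑ j ∈ range (n + 1), ‖av a (k + 1) (b j) f - av a k (b j) f‖ ^ 2 := by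
    have : ∑ i ∈ range (k + 1), ‖Z i‖ ^ 2 =
        ∑ j ∈ range (k + 1), ‖av a (k + 1) (b j) f - av a k (b j) f‖ ^ 2 := by
      rw [← sum_range_reflect (fun j => ‖av a (k + 1) (b j) f - av a k (b j) f‖ ^ 2) (k + 1)]
      refine sum_congr rfl fun i _ => ?_
      simp only [hZ]
      congr 5
    rw [this]
    refine sum_le_sum_of_subset_of_nonneg ?_ ?_
    · exact range_subset_range.mpr (by omega)
    · intro i _ _; positivity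
  have cmp : ∀ (c : ℕ → ℂ), c 0 = 0 → ∑ i ∈ range (k + 1), ‖c i / k‖ ^ 2 ≤
      ∑ i ∈ Icc 1 n, ‖c i / (i : ℂ)‖ ^ 2 := by
    intro c hc
    have h1 : ∑ i ∈ range (k + 1), ‖c i / k‖ ^ 2 ≤ ∑ i ∈ range (k + 1), ‖c i / (i : ℂ)‖ ^ 2 := by
      refine sum_le_sum fun i hi => ?_
      rw [mem_range] at hi
      rcases Nat.eq_zero_or_pos i with rfl | hi0
      · rw [hc]; simp
      · have hir : (0 : ℝ) < (i : ℝ) := by exact_mod_cast hi0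
        have hik : (i : ℝ) ≤ (k : ℝ) := by exact_mod_cast (by omega : i ≤ k)
        rw [norm_div, norm_div, Complex.norm_natCast, Complex.norm_natCast]
        gcongr
    refine h1.trans ?_
    rw [sum_range_succ']
    have h2 : ‖c 0 / ((0 : ℕ) : ℂ)‖ ^ 2 = 0 := by rw [hc]; simp
    rw [h2, add_zero]
    have h3 : ∑ i ∈ range k, ‖c (i + 1) / ((i + 1 : ℕ) : ℂ)‖ ^ 2 =
        ∑ i ∈ Icc 1 k, ‖c i / (i : ℂ)‖ ^ 2 := by
      rw [range_eq_Ico, sum_Ico_add' (fun i => ‖c i / (i : ℂ)‖ ^ 2) 0 k 1]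
      rfl
    rw [h3]
    refine sum_le_sum_of_subset_of_nonneg ?_ ?_
    · exact Icc_subset_Icc_right hkn
    · intro i _ _; positivity
  have hX1 : ∑ i ∈ range (k + 1), ‖X i‖ ^ 2 ≤
      ∑ i ∈ Icc 1 n, ‖av a (k + 1) (fun g => s i g / (i : ℂ)) f -
        av a k (fun g => s i g / (i : ℂ)) f‖ ^ 2 := by
    refine (cmp (fun i => av a (k + 1) (s i) f - av a k (s i) f) (by rw [av0, av0, sub_zero])).trans
      (le_of_eq ?_)
    refine sum_congr rfl fun i _ => ?_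
    rw [avd, avd, sub_div]
  have hV1 : ∑ i ∈ range (k + 1), ‖V i‖ ^ 2 ≤ σ := by
    refine (cmp (fun i => av a k (s i) f) (av0 k)).trans ?_
    refine le_trans (le_of_eq ?_)
      (sum_av_sq_le (k := k) a (Icc 1 n) (fun i g => s i g / (i : ℂ)) σ hs f)
    refine sum_congr rfl fun i _ => ?_
    rw [avd]
  rw [e1]
  refine (Sum_two _ _).trans ?_
  have c1 := Sum_cs (range (k + 1)) X Y
  have c2 := Sum_cs (range (k + 1)) Z V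
  have n1 : 0 ≤ ∑ i ∈ range (k + 1), ‖X i‖ ^ 2 := by positivity
  have n2 : 0 ≤ ∑ i ∈ range (k + 1), ‖Z i‖ ^ 2 := by positivity
  have n3 : 0 ≤ ∑ i ∈ range (k + 1), ‖V i‖ ^ 2 := by positivity
  have d1 : (∑ i ∈ range (k + 1), ‖X i‖ ^ 2) * ∑ i ∈ range (k + 1), ‖Y i‖ ^ 2 ≤
      ∑ i ∈ range (k + 1), ‖X i‖ ^ 2 := mul_le_of_le_one_right n1 hY1
  have d2 : (∑ i ∈ range (k + 1), ‖Z i‖ ^ 2) * ∑ i ∈ range (k + 1), ‖V i‖ ^ 2 ≤
      (∑ j ∈ range (n + 1), ‖av a (k + 1) (b j) f - av a k (b j) f‖ ^ 2) * σ :=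
    mul_le_mul hZ1 hV1 n3 (n2.trans hZ1)
  linarith

theorem sumW (a : ℕ → ι → ℤ) (b s : ℕ → ι → ℂ) (n : ℕ) (σ : ℝ) (hσ : 0 ≤ σ)
    (hb : ∀ f, ∑ j ∈ range (n + 1), ‖b j f‖ ^ 2 ≤ 1)
    (hs : ∀ f, ∑ i ∈ Icc 1 n, ‖s i f / (i : ℂ)‖ ^ 2 ≤ σ) (hs0 : ∀ f, s 0 f = 0) :
    ∑ k ∈ Icc 1 n, ∑ f, ‖WW a b s k f‖ ^ 2 ≤ 4 * σ * Fintype.card ι := by
  have h1 : ∑ k ∈ Icc 1 n, ∑ f, ‖WW a b s k f‖ ^ 2 ≤ ∑ k ∈ Icc 1 n, ∑ f,
      (2 * ∑ i ∈ Icc 1 n, ‖av a (k + 1) (fun g => s i g / (i : ℂ)) f -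
        av a k (fun g => s i g / (i : ℂ)) f‖ ^ 2 +
      2 * σ * ∑ j ∈ range (n + 1), ‖av a (k + 1) (b j) f - av a k (b j) f‖ ^ 2) := by
    refine sum_le_sum fun k hk => sum_le_sum fun f _ => ?_
    rw [mem_Icc] at hk
    exact WW_le a b s n σ hb hs hs0 k hk.1 hk.2 f
  refine h1.trans ?_
  have sub : ∀ X : ι → ℂ, ∑ k ∈ Icc 1 n, ∑ f, ‖av a (k + 1) X f - av a k X f‖ ^ 2 ≤
      ∑ f, ‖X f‖ ^ 2 := by
    intro X
    refine le_trans (sum_le_sum_of_subset_of_nonneg (t := range (n + 1)) ?_ ?_)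
      (av_incr_sum a (n + 1) X)
    · intro i hi
      rw [mem_Icc] at hi
      rw [mem_range]
      omega
    · intro i _ _; positivity
  have e1 : ∑ k ∈ Icc 1 n, ∑ f,
      (2 * ∑ i ∈ Icc 1 n, ‖av a (k + 1) (fun g => s i g / (i : ℂ)) f -
        av a k (fun g => s i g / (i : ℂ)) f‖ ^ 2 +
      2 * σ * ∑ j ∈ range (n + 1), ‖av a (k + 1) (b j) f - av a k (b j) f‖ ^ 2) =
      2 * ∑ i ∈ Icc 1 n, (∑ k ∈ Icc 1 n, ∑ f, ‖av a (k + 1) (fun g => s i g / (i : ℂ)) f -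
        av a k (fun g => s i g / (i : ℂ)) f‖ ^ 2) +
      2 * σ * ∑ j ∈ range (n + 1), (∑ k ∈ Icc 1 n, ∑ f,
        ‖av a (k + 1) (b j) f - av a k (b j) f‖ ^ 2) := by
    have e2 : ∀ k ∈ Icc 1 n, ∑ f,
      (2 * ∑ i ∈ Icc 1 n, ‖av a (k + 1) (fun g => s i g / (i : ℂ)) f -
        av a k (fun g => s i g / (i : ℂ)) f‖ ^ 2 +
      2 * σ * ∑ j ∈ range (n + 1), ‖av a (k + 1) (b j) f - av a k (b j) f‖ ^ 2) =
      2 * ∑ i ∈ Icc 1 n, ∑ f, ‖av a (k + 1) (fun g => s i g / (i : ℂ)) f -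
        av a k (fun g => s i g / (i : ℂ)) f‖ ^ 2 +
      2 * σ * ∑ j ∈ range (n + 1), ∑ f,
        ‖av a (k + 1) (b j) f - av a k (b j) f‖ ^ 2 := by
      intro k _
      rw [sum_add_distrib, ← mul_sum, ← mul_sum, sum_comm]
      congr 2
      rw [sum_comm]
    rw [sum_congr rfl e2, sum_add_distrib, ← mul_sum, ← mul_sum, sum_comm]
    congr 2
    rw [sum_comm]
  rw [e1]
  have t1 : ∑ i ∈ Icc 1 n, (∑ k ∈ Icc 1 n, ∑ f, ‖av a (k + 1) (fun g => s i g / (i : ℂ)) f -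
        av a k (fun g => s i g / (i : ℂ)) f‖ ^ 2) ≤ σ * Fintype.card ι := by
    calc _ ≤ ∑ i ∈ Icc 1 n, ∑ f, ‖s i f / (i : ℂ)‖ ^ 2 :=
          sum_le_sum fun i _ => sub (fun g => s i g / (i : ℂ))
      _ = ∑ f : ι, ∑ i ∈ Icc 1 n, ‖s i f / (i : ℂ)‖ ^ 2 := sum_comm
      _ ≤ ∑ _f : ι, σ := sum_le_sum fun f _ => hs f
      _ = σ * Fintype.card ι := by rw [sum_const, card_univ, nsmul_eq_mul, mul_comm]
  have t2 : ∑ j ∈ range (n + 1), (∑ k ∈ Icc 1 n, ∑ f,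
        ‖av a (k + 1) (b j) f - av a k (b j) f‖ ^ 2) ≤ Fintype.card ι := by
    calc _ ≤ ∑ j ∈ range (n + 1), ∑ f, ‖b j f‖ ^ 2 := sum_le_sum fun j _ => sub (b j)
      _ = ∑ f : ι, ∑ j ∈ range (n + 1), ‖b j f‖ ^ 2 := sum_comm
      _ ≤ ∑ _f : ι, (1 : ℝ) := sum_le_sum fun f _ => hb f
      _ = Fintype.card ι := by rw [sum_const, card_univ, nsmul_eq_mul, mul_one]
  have t3 := mul_le_mul_of_nonneg_left t2 (by positivity : (0 : ℝ) ≤ 2 * σ)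
  linarith

end Pool.Agent.Lib.MP_7ab245_nt.QS
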