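import Pool.Agent.Lib.MP_7ab245_nt.QS.Wro
import Pool.Agent.Lib.MP_7ab245_nt.QS.Avk
import Pool.Agent.Lib.MP_7ab245_nt.QS.Sum
import Pool.Agent.Lib.MP_7ab245_nt.QC.Code2

/-!
QS-Fam: the number of polynomials with a fixed constant coefficient.

PROOF. `ι = F`, `a j g = g.coeff j`, `m g = mt n Λ⁻¹ g ≥ 1/(6T)` (om0_ge), `b j g = coeff j (be g)`, `s i g = coeff i (sf g)`; `A k f := ra a k (a_k m) f / ra a k m f`.
`wro` and `avk`: `a₀ m' m̄ (a_k - A_k) = WW`, so `|a_k - A_k| ≤ 36 T² ‖WW‖`; `sumW` with `σ = 2 + 8 Λ²` (be_sum, we_sf); `code2`.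
-/

set_option autoImplicit false

open Finset

namespace Pool.Agent.Lib.MP_7ab245_nt.QS

open Pool.Agent.Lib.MP_7ab245_nt.LogVar Pool.Agent.Lib.MP_7ab245_nt.Cnt
open Pool.Agent.Lib.MP_7ab245_nt.QC

private theorem fam_cell {T x m' mb c Wn : ℝ} (hT : 0 < T) (hc : 1 ≤ c) (hm' : T⁻¹ ≤ m')
    (hmb : T⁻¹ ≤ mb) (h : c * m' * (mb * |x|) = Wn) : |x| ≤ T ^ 2 * Wn := by
  have hTi : 0 < T⁻¹ := inv_pos.2 hT
  have hx := abs_nonneg x
  have h1 : T⁻¹ * T⁻¹ ≤ c * m' * mb := by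
    calc T⁻¹ * T⁻¹ ≤ m' * mb := mul_le_mul hm' hmb hTi.le (hTi.le.trans hm')
      _ ≤ c * (m' * mb) := le_mul_of_one_le_left
          (mul_nonneg (hTi.le.trans hm') (hTi.le.trans hmb)) hc
      _ = c * m' * mb := by ring
  have h2 : T⁻¹ * T⁻¹ * |x| ≤ Wn := by
    calc T⁻¹ * T⁻¹ * |x| ≤ c * m' * mb * |x| := mul_le_mul_of_nonneg_right h1 hx
      _ = Wn := by rw [← h]; ring
  calc |x| = T ^ 2 * (T⁻¹ * T⁻¹ * |x|) := by field_simp
    _ ≤ T ^ 2 * Wn := mul_le_mul_of_nonneg_left h2 (by positivity)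

theorem mt_ge (n : ℕ) (hn : 1 ≤ n) (f : Polynomial ℤ) (h0 : f.coeff 0 ≠ 0) (T Λ : ℝ) (hT : 0 < T)
    (hΛ : 0 < Λ) (hM : MM f ≤ T) (hl : 3 * ll f ≤ Λ) : (6 * T)⁻¹ ≤ mt n Λ⁻¹ f := by
  have h1 := om0_ge n hn f h0 Λ hΛ hl
  have h2 := cxMM_pos f h0
  unfold mt
  rw [le_div_iff₀ h2]
  calc (6 * T)⁻¹ * MM f ≤ (6 * T)⁻¹ * T := mul_le_mul_of_nonneg_left hM (by positivity)
    _ = 1 / 6 := by field_simp
    _ ≤ _ := h1

theorem fam (n : ℕ) (hn : 1 ≤ n) (T Λ : ℝ) (hT : 0 < T) (hΛ : 0 < Λ) (a₀ : ℤ)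
    (ha₀ : a₀ ≠ 0) (F : Finset (Polynomial ℤ))
    (hF : ∀ f ∈ F, f.natDegree ≤ n ∧ f.coeff 0 = a₀ ∧ MM f ≤ T ∧ 3 * ll f ≤ Λ) :
    (F.card : ℝ) ≤ Real.exp (2 + 4 * (1 + Real.log n) * (5184 * T ^ 4 * (2 + 8 * Λ ^ 2))) := by
  classical
  rcases F.eq_empty_or_nonempty with hF0 | ⟨f₁, hf₁⟩
  · rw [hF0, Finset.card_empty, Nat.cast_zero]
    positivity
  have hne : Nonempty F := ⟨⟨f₁, hf₁⟩⟩
  have hc0 : ∀ g : F, (g : Polynomial ℤ).coeff 0 ≠ 0 := fun g => by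
    rw [(hF g g.2).2.1]; exact ha₀
  have hε : 0 < Λ⁻¹ := inv_pos.2 hΛ
  obtain ⟨a, ha⟩ : ∃ a : ℕ → F → ℤ, a = fun (j : ℕ) (g : F) => (g : Polynomial ℤ).coeff j :=
    ⟨_, rfl⟩
  obtain ⟨m, hm⟩ : ∃ m : F → ℝ, m = fun g : F => mt n Λ⁻¹ (g : Polynomial ℤ) := ⟨_, rfl⟩
  obtain ⟨b, hb⟩ : ∃ b : ℕ → F → ℂ, b = fun (j : ℕ) (g : F) =>
    PowerSeries.coeff j (be n Λ⁻¹ (g : Polynomial ℤ)) := ⟨_, rfl⟩
  obtain ⟨s, hs⟩ : ∃ s : ℕ → F → ℂ, s = fun (j : ℕ) (g : F) =>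
    PowerSeries.coeff j (sf n Λ⁻¹ (g : Polynomial ℤ)) := ⟨_, rfl⟩
  obtain ⟨A, hA⟩ : ∃ A : ℕ → F → ℝ, A = fun (k : ℕ) (f : F) =>
    ra a k (fun g => (a k g : ℝ) * m g) f / ra a k m f := ⟨_, rfl⟩
  have hmT : ∀ g : F, (6 * T)⁻¹ ≤ m g := by
    intro g
    rw [hm]
    exact mt_ge n hn _ (hc0 g) T Λ hT hΛ (hF g g.2).2.2.1 (hF g g.2).2.2.2
  have hmr : ∀ k f, (6 * T)⁻¹ ≤ ra a k m f := fun k f => ra_ge a k m (6 * T)⁻¹ hmT f
  have ha1 : (1 : ℝ) ≤ |(a₀ : ℝ)| := by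
    have h1 : 1 ≤ |a₀| := Int.one_le_abs ha₀
    have h2 : ((1 : ℤ) : ℝ) ≤ ((|a₀| : ℤ) : ℝ) := by exact_mod_cast h1
    simpa using h2
  have hwr : ∀ k, 1 ≤ k → ∀ f g : F, (∀ j < k, a j f = a j g) →
      ∑ i ∈ range (k + 1), (s i f * b (k - i) g - b (k - i) f * s i g) =
        (k : ℂ) * (a₀ : ℂ) * ((m f : ℝ) : ℂ) * ((m g : ℝ) : ℂ) * ((a k f : ℂ) - (a k g : ℂ)) := by
    intro k hk f g h
    have h1 := wro n Λ⁻¹ (f : Polynomial ℤ) (g : Polynomial ℤ) (hc0 f) k hk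
      (by
        intro j hj
        have := h j hj
        rw [ha] at this
        exact this)
    rw [(hF f f.2).2.1] at h1
    rw [hs, hb, hm, ha]
    exact h1
  have hpt : ∀ k ∈ Icc 1 n, ∀ f : F, |(a k f : ℝ) - A k f| ≤
      (6 * T) ^ 2 * ‖WW a b s k f‖ := by
    intro k hk f
    rw [Finset.mem_Icc] at hk
    have h1 := avk a b s (fun g => ((m g : ℝ) : ℂ)) (a₀ : ℂ) k hk.1 (hwr k hk.1) f
    have e2 : (fun g : F => (a k g : ℂ) * ((m g : ℝ) : ℂ)) =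
        fun g => (((a k g : ℝ) * m g : ℝ) : ℂ) := by
      funext g
      push_cast
      rfl
    rw [e2, av_ofReal, av_ofReal, av_ofReal] at h1
    have h2 : WW a b s k f =
        (((a₀ : ℝ) * ra a (k + 1) m f *
          ((a k f : ℝ) * ra a k m f - ra a k (fun g => (a k g : ℝ) * m g) f) : ℝ) : ℂ) := by
      rw [h1]
      push_cast
      rfl
    have hr0 : 0 < ra a k m f := lt_of_lt_of_le (inv_pos.2 (by positivity)) (hmr k f)
    have hr1 : 0 < ra a (k + 1) m f := lt_of_lt_of_le (inv_pos.2 (by positivity)) (hmr (k + 1) f)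
    refine fam_cell (by positivity) ha1 (hmr (k + 1) f) (hmr k f) ?_
    rw [h2, Complex.norm_real, Real.norm_eq_abs, abs_mul, abs_mul, abs_of_pos hr1]
    congr 1
    rw [hA]
    rw [← abs_of_pos hr0, ← abs_mul, abs_of_pos hr0]
    congr 1
    field_simp
  have hmain := sumW a b s n (2 + 8 * Λ ^ 2) (by positivity)
    (by
      intro f
      rw [hb]
      exact be_sum n Λ⁻¹ hε.le _ (hc0 f) (n + 1))
    (by
      intro f
      rw [hs]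
      have h1 := we_sf n hn (f : Polynomial ℤ) (hc0 f) Λ hΛ (hF f f.2).2.2.2
      refine le_trans (le_of_eq ?_) h1
      unfold we
      refine sum_congr rfl fun i _ => ?_
      rw [norm_div, Complex.norm_natCast, div_pow])
    (by
      intro f
      rw [hs]
      exact sf_zero n Λ⁻¹ _)
  have hV : ∑ k ∈ Icc 1 n, ∑ f, ((a k f : ℝ) - A k f) ^ 2 ≤
      (5184 * T ^ 4 * (2 + 8 * Λ ^ 2)) * Fintype.card F := by
    calc ∑ k ∈ Icc 1 n, ∑ f, ((a k f : ℝ) - A k f) ^ 2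
        ≤ ∑ k ∈ Icc 1 n, ∑ f, 1296 * T ^ 4 * ‖WW a b s k f‖ ^ 2 := by
          refine Finset.sum_le_sum fun k hk => Finset.sum_le_sum fun f _ => ?_
          have h1 := pow_le_pow_left₀ (abs_nonneg _) (hpt k hk f) 2
          rw [sq_abs] at h1
          refine h1.trans (le_of_eq ?_)
          ring
      _ = 1296 * T ^ 4 * ∑ k ∈ Icc 1 n, ∑ f, ‖WW a b s k f‖ ^ 2 := by
          simp only [Finset.mul_sum]
      _ ≤ 1296 * T ^ 4 * (4 * (2 + 8 * Λ ^ 2) * Fintype.card F) :=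
          mul_le_mul_of_nonneg_left hmain (by positivity)
      _ = _ := by ring
  have hcode := code2 a n hn A
    (by
      intro f g
      rw [ha]
      simp only
      rw [(hF f f.2).2.1, (hF g g.2).2.1])
    (by
      intro k f g h
      rw [hA]
      simp only
      rw [ra_congr a _ h, ra_congr a m h])
    (by
      intro f g h
      apply Subtype.ext
      ext j
      by_cases hj : j ≤ n
      · have := h j hj
        rw [ha] at this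
        exact this
      · rw [Polynomial.coeff_eq_zero_of_natDegree_lt (by have := (hF f f.2).1; omega),
          Polynomial.coeff_eq_zero_of_natDegree_lt (by have := (hF g g.2).1; omega)])
    _ hV
  rw [Fintype.card_coe] at hcode
  have hcard : (0 : ℝ) < F.card := by exact_mod_cast Finset.card_pos.2 ⟨f₁, hf₁⟩
  rw [← Real.log_le_iff_le_exp hcard]
  exact hcode

end Pool.Agent.Lib.MP_7ab245_nt.QS
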