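import Pool.Agent.Lib.MP_7ab245_nt.QS.Der
import Pool.Agent.Lib.MP_7ab245_nt.QC.Disc1
import Pool.Agent.Lib.MP_7ab245_nt.QC.UMean

/-!
QS-Om: the damping factor `om`.

PROOF. `hz_diff`: `wp - wm = U/N`, `d1` with `N = 5 n`, `vw_one`. `we_om`: `om (xd h⁺ - xd h⁻) = φ⁻² (φ⁺² xd h⁺) - φ⁺² (φ⁻² xd h⁻)`.
-/

set_option autoImplicit false

open Finset

namespace Pool.Agent.Lib.MP_7ab245_nt.QS

open Pool.Agent.Lib.MP_7ab245_nt.LogVar Pool.Agent.Lib.MP_7ab245_nt.Cnt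
open Pool.Agent.Lib.MP_7ab245_nt.QC

theorem wp_nonneg (n : ℕ) (f : Polynomial ℤ) (t : ℕ) : 0 ≤ wp n f t := by
  unfold wp
  positivity

theorem wm_nonneg (n : ℕ) (f : Polynomial ℤ) (t : ℕ) : 0 ≤ wm n f t := by
  unfold wm
  positivity

theorem wp_sub_wm (n : ℕ) (f : Polynomial ℤ) (t : ℕ) :
    wp n f t - wm n f t = ut n (zg (5 * n) t) f / (5 * n : ℕ) := by
  unfold wp wm
  rw [← sub_div, max_zero_sub_max_neg_zero_eq_self]

theorem wp_add_wm (n : ℕ) (f : Polynomial ℤ) (t : ℕ) :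
    wp n f t + wm n f t = |ut n (zg (5 * n) t) f| / (5 * n : ℕ) := by
  unfold wp wm
  rw [← add_div, max_zero_add_max_neg_zero_eq_abs_self]

/-- total mass -/
theorem mass_le (n : ℕ) (hn : 1 ≤ n) (f : Polynomial ℤ) (h0 : f.coeff 0 ≠ 0) :
    ∑ t ∈ range (5 * n), wp n f t + ∑ t ∈ range (5 * n), wm n f t ≤ 3 * ll f := by
  rw [← sum_add_distrib]
  simp only [wp_add_wm]
  rw [← sum_div, div_le_iff₀ (by positivity)]
  exact ut_mean n (5 * n) hn (by omega) f h0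

theorem hz_diff (n : ℕ) (hn : 1 ≤ n) (f : Polynomial ℤ) (i : ℕ) (hi : i ≤ n) :
    PowerSeries.coeff i (ld (ho (cx f))) =
      PowerSeries.coeff i (xd (hz (5 * n) (zg (5 * n)) (wp n f)) -
        xd (hz (5 * n) (zg (5 * n)) (wm n f))) := by
  rcases Nat.eq_zero_or_pos i with rfl | hi1
  · rw [ld_zero, map_sub, coeff_xd, coeff_xd]
    simp
  · rw [map_sub, coeff_xd, coeff_xd, coeff_hz _ _ _ i hi1, coeff_hz _ _ _ i hi1, ← mul_sub,
      ← mul_sub, ← sum_sub_distrib]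
    have h1 := d1 n (5 * n) i hn le_rfl hi1 (by omega) f
    rw [vw_one n i hn hi] at h1
    have h2 : ∑ t ∈ range (5 * n), ((wp n f t : ℂ) * (starRingEnd ℂ) (zg (5 * n) t) ^ i -
        (wm n f t : ℂ) * (starRingEnd ℂ) (zg (5 * n) t) ^ i) =
        (∑ t ∈ range (5 * n), zg (5 * n) t ^ (-(i : ℤ)) * (ut n (zg (5 * n) t) f : ℂ)) /
          ((5 * n : ℕ) : ℂ) := by
      rw [sum_div]
      refine sum_congr rfl fun t _ => ?_
      rw [← sub_mul, ← Complex.ofReal_sub, wp_sub_wm, conj_zg, inv_pow, zpow_neg, zpow_natCast]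
      push_cast
      ring
    rw [h2, h1]
    have hn0 : (n : ℂ) ≠ 0 := by exact_mod_cast (by omega : n ≠ 0)
    have hi0 : (i : ℂ) ≠ 0 := by exact_mod_cast (by omega : i ≠ 0)
    unfold Cnt.QQ
    push_cast
    field_simp

theorem PC_om (n : ℕ) (ε : ℝ) (hε : 0 ≤ ε) (f : Polynomial ℤ) : PC (om n ε f) := by
  have h1 := PC_ph (5 * n) (zg (5 * n)) (fun t _ => norm_zg _ t) (wp n f)
    (fun t _ => wp_nonneg n f t) ε hε
  have h2 := PC_ph (5 * n) (zg (5 * n)) (fun t _ => norm_zg _ t) (wm n f)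
    (fun t _ => wm_nonneg n f t) ε hε
  unfold om
  rw [sq, sq]
  exact PC_mul (PC_mul h1 h1) (PC_mul h2 h2)

theorem om_zero (n : ℕ) (ε : ℝ) (f : Polynomial ℤ) :
    PowerSeries.coeff 0 (om n ε f) = ((om0 n ε f : ℝ) : ℂ) := by
  unfold om om0
  rw [PowerSeries.coeff_zero_eq_constantCoeff_apply, map_mul, map_pow, map_pow,
    ← PowerSeries.coeff_zero_eq_constantCoeff_apply, ← PowerSeries.coeff_zero_eq_constantCoeff_apply,
    ph_coeff_zero, ph_coeff_zero]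
  push_cast
  rfl

theorem om0_ge (n : ℕ) (hn : 1 ≤ n) (f : Polynomial ℤ) (h0 : f.coeff 0 ≠ 0) (Λ : ℝ) (hΛ : 0 < Λ)
    (hl : 3 * ll f ≤ Λ) : 1 / 6 ≤ om0 n Λ⁻¹ f := by
  have hp : 0 ≤ ∑ t ∈ range (5 * n), wp n f t := sum_nonneg fun t _ => wp_nonneg n f t
  have hm : 0 ≤ ∑ t ∈ range (5 * n), wm n f t := sum_nonneg fun t _ => wm_nonneg n f t
  have hs := (mass_le n hn f h0).trans hl
  unfold om0
  set p := ∑ t ∈ range (5 * n), wp n f t with hpdef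
  set m := ∑ t ∈ range (5 * n), wm n f t with hmdef
  have hx : 0 ≤ Λ⁻¹ * p := by positivity
  have hy : 0 ≤ Λ⁻¹ * m := by positivity
  have hxy : Λ⁻¹ * p + Λ⁻¹ * m ≤ 1 := by
    rw [← mul_add, inv_mul_le_iff₀ hΛ, mul_one]
    exact hs
  set x := Λ⁻¹ * p
  set y := Λ⁻¹ * m
  rw [← mul_pow, ← mul_inv, inv_pow, ← one_div]
  apply one_div_le_one_div_of_le (by positivity)
  have h1 : (1 + x) * (1 + y) ≤ 9 / 4 := by nlinarith [sq_nonneg (x - y)]
  have h2 : 0 ≤ (1 + x) * (1 + y) := by positivity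
  nlinarith

theorem om0_pos (n : ℕ) (f : Polynomial ℤ) (ε : ℝ) (hε : 0 ≤ ε) : 0 < om0 n ε f := by
  have hp : 0 ≤ ∑ t ∈ range (5 * n), wp n f t := sum_nonneg fun t _ => wp_nonneg n f t
  have hm : 0 ≤ ∑ t ∈ range (5 * n), wm n f t := sum_nonneg fun t _ => wm_nonneg n f t
  unfold om0
  positivity

theorem we_om (n : ℕ) (hn : 1 ≤ n) (f : Polynomial ℤ) (h0 : f.coeff 0 ≠ 0) (ε Λ : ℝ) (hε : 0 < ε)
    (hl : 3 * ll f ≤ Λ) : we n (om n ε f * ld (ho (cx f))) ≤ 4 * Λ / ε := by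
  have hs := (mass_le n hn f h0).trans hl
  have hp1 := PC_ph (5 * n) (zg (5 * n)) (fun t _ => norm_zg _ t) (wp n f)
    (fun t _ => wp_nonneg n f t) ε hε.le
  have hm1 := PC_ph (5 * n) (zg (5 * n)) (fun t _ => norm_zg _ t) (wm n f)
    (fun t _ => wm_nonneg n f t) ε hε.le
  have hp2 := we_ph (5 * n) (zg (5 * n)) (fun t _ => norm_zg _ t) (wp n f)
    (fun t _ => wp_nonneg n f t) ε hε n
  have hm2 := we_ph (5 * n) (zg (5 * n)) (fun t _ => norm_zg _ t) (wm n f)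
    (fun t _ => wm_nonneg n f t) ε hε n
  rw [we_congr n (om n ε f) _ _ (hz_diff n hn f)]
  set P := ph (5 * n) (zg (5 * n)) (wp n f) ε with hP
  set M := ph (5 * n) (zg (5 * n)) (wm n f) ε with hM
  set hp := hz (5 * n) (zg (5 * n)) (wp n f) with hhp
  set hm := hz (5 * n) (zg (5 * n)) (wm n f) with hhm
  have e1 : om n ε f * (xd hp - xd hm) = (M * M) * (P ^ 2 * xd hp) + -((P * P) * (M ^ 2 * xd hm)) := by
    unfold om
    rw [← hP, ← hM]
    ring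
  have z1 : ∀ A h : PowerSeries ℂ, PowerSeries.coeff 0 (A ^ 2 * xd h) = 0 := by
    intro A h
    rw [PowerSeries.coeff_zero_eq_constantCoeff_apply, map_mul,
      ← PowerSeries.coeff_zero_eq_constantCoeff_apply (φ := xd h), coeff_xd]
    simp
  rw [e1]
  refine (we_add_le n _ _).trans ?_
  rw [we_neg]
  have a1 := we_mul_le (PC_mul hm1 hm1) (P ^ 2 * xd hp) (z1 _ _) n
  have a2 := we_mul_le (PC_mul hp1 hp1) (M ^ 2 * xd hm) (z1 _ _) n
  have e2 : 4 * Λ / ε = 2 * (2 * Λ / ε) := by ring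
  have e3 : 2 * (∑ t ∈ range (5 * n), wp n f t) / ε + 2 * (∑ t ∈ range (5 * n), wm n f t) / ε ≤
      2 * Λ / ε := by
    rw [← add_div]
    apply div_le_div_of_nonneg_right _ hε.le
    linarith
  rw [e2]
  linarith

end Pool.Agent.Lib.MP_7ab245_nt.QS
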