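import Pool.Agent.Lib.MP_7ab245_nt.QS.Wt

/-!
QS-Pos: Herglotz sums; `1 / (1 + ε h)` is a prefix contraction.

PROOF. `coeff_hz_mul`: `coeff_mul`, for `j < R` `conj z^(R-j) = conj z^R z^j` as `conj z * z = 1`. `re_hz`: induction on `R`: `|S + x|² = |S|² + |x|² + 2 Re (conj x S)` with
`S = ∑_{j<R} z^j c_j`, `x = z^R c_R`. `PC_ph`: `c = ph * a`, `a = (1 + ε h) c`, `‖c_i + ε (hc)_i‖² ≥ ‖c_i‖² + 2 ε Re (conj c_i (hc)_i)`, sum over `i < R`.
-/

set_option autoImplicit false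

open Finset

namespace Pool.Agent.Lib.MP_7ab245_nt.QS

open Pool.Agent.Lib.MP_7ab245_nt.LogVar Pool.Agent.Lib.MP_7ab245_nt.Cnt
open Pool.Agent.Lib.MP_7ab245_nt.QC

theorem coeff_hz_zero (N : ℕ) (z : ℕ → ℂ) (w : ℕ → ℝ) :
    PowerSeries.coeff 0 (hz N z w) = ∑ t ∈ range N, (w t : ℂ) := by
  unfold hz
  rw [PowerSeries.coeff_mk, if_pos rfl]

theorem coeff_hz (N : ℕ) (z : ℕ → ℂ) (w : ℕ → ℝ) (l : ℕ) (hl : 1 ≤ l) :
    PowerSeries.coeff l (hz N z w) = 2 * ∑ t ∈ range N, (w t : ℂ) * (starRingEnd ℂ) (z t) ^ l := by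
  unfold hz
  rw [PowerSeries.coeff_mk, if_neg (by omega)]

theorem coeff_hz_mul (N : ℕ) (z : ℕ → ℂ) (hz1 : ∀ t < N, ‖z t‖ = 1) (w : ℕ → ℝ)
    (c : PowerSeries ℂ) (R : ℕ) :
    PowerSeries.coeff R (hz N z w * c) = ∑ t ∈ range N, (w t : ℂ) * (PowerSeries.coeff R c +
      2 * ((starRingEnd ℂ) (z t) ^ R * ∑ j ∈ range R, z t ^ j * PowerSeries.coeff j c)) := by
  have h1 : ∀ t < N, (starRingEnd ℂ) (z t) * z t = 1 := by
    intro t ht
    rw [mul_comm, Complex.mul_conj, Complex.normSq_eq_norm_sq, hz1 t ht]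
    simp
  rw [mul_comm, PowerSeries.coeff_mul, Finset.Nat.sum_antidiagonal_eq_sum_range_succ
    (fun i j => PowerSeries.coeff i c * PowerSeries.coeff j (hz N z w)), sum_range_succ,
    Nat.sub_self, coeff_hz_zero]
  have h2 : ∀ j ∈ range R, PowerSeries.coeff j c * PowerSeries.coeff (R - j) (hz N z w) =
      ∑ t ∈ range N, (w t : ℂ) * (2 * ((starRingEnd ℂ) (z t) ^ R *
        (z t ^ j * PowerSeries.coeff j c))) := by
    intro j hj
    rw [mem_range] at hj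
    rw [coeff_hz N z w (R - j) (by omega), mul_sum, mul_sum]
    refine sum_congr rfl fun t ht => ?_
    rw [mem_range] at ht
    have h3 : (starRingEnd ℂ) (z t) ^ R = (starRingEnd ℂ) (z t) ^ (R - j) *
        (starRingEnd ℂ) (z t) ^ j := by
      rw [← pow_add]
      congr 1
      omega
    have h4 : (starRingEnd ℂ) (z t) ^ j * z t ^ j = 1 := by
      rw [← mul_pow, h1 t ht, one_pow]
    rw [h3]
    calc PowerSeries.coeff j c * (2 * ((w t : ℂ) * (starRingEnd ℂ) (z t) ^ (R - j)))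
        = (w t : ℂ) * (2 * ((starRingEnd ℂ) (z t) ^ (R - j) * 1 * PowerSeries.coeff j c)) := by ring
      _ = _ := by rw [← h4]; ring
  rw [sum_congr rfl h2, sum_comm, mul_comm (PowerSeries.coeff R c), sum_mul, ← sum_add_distrib]
  refine sum_congr rfl fun t _ => ?_
  rw [mul_sum, mul_sum, mul_add, mul_sum]
  ring

theorem re_hz (N : ℕ) (z : ℕ → ℂ) (hz1 : ∀ t < N, ‖z t‖ = 1) (w : ℕ → ℝ)
    (c : PowerSeries ℂ) (R : ℕ) :
    ∑ i ∈ range R, ((starRingEnd ℂ) (PowerSeries.coeff i c) *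
      PowerSeries.coeff i (hz N z w * c)).re =
      ∑ t ∈ range N, w t * ‖∑ i ∈ range R, z t ^ i * PowerSeries.coeff i c‖ ^ 2 := by
  induction R with
  | zero => simp
  | succ R ih =>
    rw [sum_range_succ, ih, coeff_hz_mul N z hz1, mul_sum, Complex.re_sum, ← sum_add_distrib]
    refine sum_congr rfl fun t ht => ?_
    rw [mem_range] at ht
    rw [sum_range_succ]
    set S := ∑ j ∈ range R, z t ^ j * PowerSeries.coeff j c with hS
    set x := PowerSeries.coeff R c with hx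
    have h1 : ‖S + z t ^ R * x‖ ^ 2 = ‖S‖ ^ 2 + ‖x‖ ^ 2 +
        2 * ((starRingEnd ℂ) x * ((starRingEnd ℂ) (z t) ^ R * S)).re := by
      rw [← Complex.normSq_eq_norm_sq, Complex.normSq_add, Complex.normSq_eq_norm_sq,
        Complex.normSq_eq_norm_sq, norm_mul, norm_pow, hz1 t ht, one_pow, one_mul, map_mul,
        map_pow]
      congr 3
      ring
    have h2 : ((starRingEnd ℂ) x * ((w t : ℂ) * (x + 2 * ((starRingEnd ℂ) (z t) ^ R * S)))).re =
        w t * (‖x‖ ^ 2 + 2 * ((starRingEnd ℂ) x * ((starRingEnd ℂ) (z t) ^ R * S)).re) := by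
      have h3 : (starRingEnd ℂ) x * ((w t : ℂ) * (x + 2 * ((starRingEnd ℂ) (z t) ^ R * S))) =
          ((w t : ℝ) : ℂ) * ((x * (starRingEnd ℂ) x) +
            ((2 : ℝ) : ℂ) * ((starRingEnd ℂ) x * ((starRingEnd ℂ) (z t) ^ R * S))) := by
        push_cast
        ring
      rw [h3, Complex.re_ofReal_mul, Complex.add_re, Complex.re_ofReal_mul, Complex.mul_conj,
        Complex.ofReal_re, Complex.normSq_eq_norm_sq]
    rw [h1, h2]
    ring

theorem ph_const (N : ℕ) (z : ℕ → ℂ) (w : ℕ → ℝ) (ε : ℝ) :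
    PowerSeries.constantCoeff (1 + PowerSeries.C (ε : ℂ) * hz N z w) =
      ((1 + ε * ∑ t ∈ range N, w t : ℝ) : ℂ) := by
  rw [map_add, map_one, map_mul, PowerSeries.constantCoeff_C,
    ← PowerSeries.coeff_zero_eq_constantCoeff_apply, coeff_hz_zero]
  push_cast
  rfl

theorem ph_ne (N : ℕ) (z : ℕ → ℂ) (w : ℕ → ℝ) (hw : ∀ t < N, 0 ≤ w t) (ε : ℝ) (hε : 0 ≤ ε) :
    PowerSeries.constantCoeff (1 + PowerSeries.C (ε : ℂ) * hz N z w) ≠ 0 := by
  rw [ph_const]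
  have h1 : 0 ≤ ∑ t ∈ range N, w t := sum_nonneg fun t ht => hw t (mem_range.mp ht)
  have h2 : 0 ≤ ε * ∑ t ∈ range N, w t := mul_nonneg hε h1
  have h3 : (1 + ε * ∑ t ∈ range N, w t : ℝ) ≠ 0 := by
    intro h
    linarith
  exact_mod_cast h3

theorem ph_coeff_zero (N : ℕ) (z : ℕ → ℂ) (w : ℕ → ℝ) (ε : ℝ) :
    PowerSeries.coeff 0 (ph N z w ε) = (((1 + ε * ∑ t ∈ range N, w t)⁻¹ : ℝ) : ℂ) := by
  unfold ph
  rw [PowerSeries.coeff_zero_eq_constantCoeff_apply, PowerSeries.constantCoeff_inv, ph_const]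
  push_cast
  rfl

private theorem Pos_re (ε : ℝ) (u v : ℂ) : (u * (starRingEnd ℂ) ((ε : ℂ) * v)).re =
    ε * ((starRingEnd ℂ) u * v).re := by
  rw [map_mul, Complex.conj_ofReal]
  simp only [Complex.mul_re, Complex.mul_im, Complex.conj_re, Complex.conj_im,
    Complex.ofReal_re, Complex.ofReal_im]
  ring

theorem PC_ph (N : ℕ) (z : ℕ → ℂ) (hz1 : ∀ t < N, ‖z t‖ = 1) (w : ℕ → ℝ) (hw : ∀ t < N, 0 ≤ w t)
    (ε : ℝ) (hε : 0 ≤ ε) : PC (ph N z w ε) := by
  intro a R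
  set c := ph N z w ε * a with hc
  have ha : a = (1 + PowerSeries.C (ε : ℂ) * hz N z w) * c := by
    rw [hc, ph, ← mul_assoc, PowerSeries.mul_inv_cancel _ (ph_ne N z w hw ε hε), one_mul]
  have h1 : ∀ i, PowerSeries.coeff i a = PowerSeries.coeff i c +
      (ε : ℂ) * PowerSeries.coeff i (hz N z w * c) := by
    intro i
    conv_lhs => rw [ha]
    rw [add_mul, one_mul, map_add, mul_assoc, PowerSeries.coeff_C_mul]
  have h2 : ∀ i ∈ range R, ‖PowerSeries.coeff i c‖ ^ 2 + 2 * ε *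
      ((starRingEnd ℂ) (PowerSeries.coeff i c) * PowerSeries.coeff i (hz N z w * c)).re ≤
      ‖PowerSeries.coeff i a‖ ^ 2 := by
    intro i _
    rw [h1, ← Complex.normSq_eq_norm_sq, ← Complex.normSq_eq_norm_sq, Complex.normSq_add]
    rw [Pos_re ε (PowerSeries.coeff i c) (PowerSeries.coeff i (hz N z w * c))]
    have h4 := Complex.normSq_nonneg ((ε : ℂ) * PowerSeries.coeff i (hz N z w * c))
    linarith
  have h5 := re_hz N z hz1 w c R
  have h6 : 0 ≤ ∑ i ∈ range R, ((starRingEnd ℂ) (PowerSeries.coeff i c) *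
      PowerSeries.coeff i (hz N z w * c)).re := by
    rw [h5]
    exact sum_nonneg fun t ht => mul_nonneg (hw t (mem_range.mp ht)) (by positivity)
  have h7 := sum_le_sum h2
  rw [sum_add_distrib, ← mul_sum] at h7
  unfold pn
  have h8 : 0 ≤ 2 * ε * ∑ i ∈ range R, ((starRingEnd ℂ) (PowerSeries.coeff i c) *
      PowerSeries.coeff i (hz N z w * c)).re := mul_nonneg (by linarith) h6
  linarith

end Pool.Agent.Lib.MP_7ab245_nt.QS
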