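import Pool.Agent.Lib.MP_7ab245_nt.QS.Om

/-!
QS-S: the series `be` and `sf`.

PROOF. `sf_eq`: `ld_poly`, `bb * ld bb = xd bb`. `we_sf`: `om` and `bb` are prefix contractions, `we_om`.
-/

set_option autoImplicit false

open Finset

namespace Pool.Agent.Lib.MP_7ab245_nt.QS

open Pool.Agent.Lib.MP_7ab245_nt.LogVar Pool.Agent.Lib.MP_7ab245_nt.Cnt
open Pool.Agent.Lib.MP_7ab245_nt.QC

theorem cx_ne (f : Polynomial ℤ) (h0 : f.coeff 0 ≠ 0) : (cx f).coeff 0 ≠ 0 := by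
  unfold cx
  rw [Polynomial.coeff_map]
  simpa using h0

theorem cxMM_pos (f : Polynomial ℤ) (h0 : f.coeff 0 ≠ 0) : 0 < MM f := by
  have h1 : cx f ≠ 0 := by
    intro h
    apply cx_ne f h0
    rw [h, Polynomial.coeff_zero]
  exact Polynomial.mahlerMeasure_pos_of_ne_zero h1

theorem PC_C {c : ℂ} (hc : ‖c‖ = 1) : PC (PowerSeries.C c) := by
  intro a R
  unfold pn
  refine sum_le_sum fun i _ => ?_
  rw [PowerSeries.coeff_C_mul, norm_mul, hc, one_mul]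

theorem norm_cst (f : Polynomial ℤ) (h0 : f.coeff 0 ≠ 0) : ‖kk (cx f) / (MM f : ℂ)‖ = 1 := by
  have hp := cxMM_pos f h0
  rw [norm_div, norm_kk, Complex.norm_real, Real.norm_of_nonneg hp.le]
  exact div_self hp.ne'

theorem PC_be (n : ℕ) (ε : ℝ) (hε : 0 ≤ ε) (f : Polynomial ℤ) (h0 : f.coeff 0 ≠ 0) :
    PC (be n ε f) :=
  PC_mul (PC_C (norm_cst f h0)) (PC_mul (PC_om n ε hε f) (PC_bb _))

theorem be_zero (n : ℕ) (ε : ℝ) (f : Polynomial ℤ) (h0 : f.coeff 0 ≠ 0) :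
    PowerSeries.coeff 0 (be n ε f) = (f.coeff 0 : ℂ) * (mt n ε f : ℂ) := by
  have hp := cxMM_pos f h0
  have h1 := congrArg PowerSeries.constantCoeff (poly_eq (cx f) (cx_ne f h0))
  rw [map_mul, map_mul, ho_const, PowerSeries.constantCoeff_C, mul_one,
    ← PowerSeries.coeff_zero_eq_constantCoeff_apply, Polynomial.coeff_coe] at h1
  have h2 : (cx f).coeff 0 = (f.coeff 0 : ℂ) := by
    unfold cx
    rw [Polynomial.coeff_map]
    rfl
  rw [h2] at h1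
  have h3 := om_zero n ε f
  rw [PowerSeries.coeff_zero_eq_constantCoeff_apply] at h3
  unfold be mt
  rw [PowerSeries.coeff_zero_eq_constantCoeff_apply, map_mul, map_mul,
    PowerSeries.constantCoeff_C, h3, h1]
  push_cast
  ring

theorem be_sum (n : ℕ) (ε : ℝ) (hε : 0 ≤ ε) (f : Polynomial ℤ) (h0 : f.coeff 0 ≠ 0) (R : ℕ) :
    ∑ j ∈ range R, ‖PowerSeries.coeff j (be n ε f)‖ ^ 2 ≤ 1 := by
  have h1 := PC_be n ε hε f h0 1 R
  rw [mul_one] at h1
  refine h1.trans ?_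
  unfold pn
  rcases R with _ | R
  · simp
  · rw [sum_range_succ', sum_eq_zero]
    · simp
    · intro i _
      rw [PowerSeries.coeff_one, if_neg (by omega), norm_zero]
      ring

theorem sf_zero (n : ℕ) (ε : ℝ) (f : Polynomial ℤ) : PowerSeries.coeff 0 (sf n ε f) = 0 := by
  unfold sf
  rw [PowerSeries.coeff_zero_eq_constantCoeff_apply, map_mul,
    ← PowerSeries.coeff_zero_eq_constantCoeff_apply (φ := ld _), ld_zero, mul_zero]

theorem sf_eq (n : ℕ) (ε : ℝ) (f : Polynomial ℤ) (h0 : f.coeff 0 ≠ 0) :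
    sf n ε f = PowerSeries.C (kk (cx f) / (MM f : ℂ)) *
      (om n ε f * xd (bb (cx f)) + bb (cx f) * (om n ε f * ld (ho (cx f)))) := by
  have h1 : bb (cx f) * ld (bb (cx f)) = xd (bb (cx f)) := by
    unfold ld xd
    have : bb (cx f) * (bb (cx f))⁻¹ = 1 := PowerSeries.mul_inv_cancel _ (bb_ne _ (cx_ne f h0))
    calc bb (cx f) * (PowerSeries.X * PowerSeries.derivative ℂ (bb (cx f)) * (bb (cx f))⁻¹)
        = PowerSeries.X * PowerSeries.derivative ℂ (bb (cx f)) * (bb (cx f) * (bb (cx f))⁻¹) := by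
          ring
      _ = _ := by rw [this, mul_one]
  unfold sf be
  rw [ld_poly _ (cx_ne f h0), ← h1]
  ring

theorem we_sf (n : ℕ) (hn : 1 ≤ n) (f : Polynomial ℤ) (h0 : f.coeff 0 ≠ 0) (Λ : ℝ) (hΛ : 0 < Λ)
    (hl : 3 * ll f ≤ Λ) : we n (sf n Λ⁻¹ f) ≤ 2 + 8 * Λ ^ 2 := by
  have hε : 0 < Λ⁻¹ := inv_pos.mpr hΛ
  rw [sf_eq n Λ⁻¹ f h0, we_smul, norm_cst f h0, one_pow, one_mul]
  refine (we_add_le n _ _).trans ?_
  have h1 : we n (om n Λ⁻¹ f * xd (bb (cx f))) ≤ 1 := by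
    refine (we_mul_le (PC_om n Λ⁻¹ hε.le f) _ ?_ n).trans ?_
    · rw [coeff_xd]; simp
    · refine (we_xd_le (PC_bb _) n).trans ?_
      have : 0 ≤ ‖PowerSeries.coeff 0 (bb (cx f))‖ ^ 2 := by positivity
      linarith
  have h2 : we n (bb (cx f) * (om n Λ⁻¹ f * ld (ho (cx f)))) ≤ 4 * Λ ^ 2 := by
    refine (we_mul_le (PC_bb _) _ ?_ n).trans ?_
    · rw [PowerSeries.coeff_zero_eq_constantCoeff_apply, map_mul,
        ← PowerSeries.coeff_zero_eq_constantCoeff_apply (φ := ld _), ld_zero, mul_zero]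
    · refine (we_om n hn f h0 Λ⁻¹ Λ hε hl).trans (le_of_eq ?_)
      field_simp
  linarith

end Pool.Agent.Lib.MP_7ab245_nt.QS
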