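import Pool.Agent.Lib.MP_7ab245_nt.QS.S
import Pool.Agent.Lib.MP_7ab245_nt.Cnt.Newton

/-!
QS-Wro: the Wronskian identity for `be` and `sf`.

PROOF. The left side is the `k`-th coefficient of `be f * be g * (ld f - ld g)`; `ld f - ld g` has no coefficient of index `< k` (PP_congr) and `a_0` times
its `k`-th coefficient is `k (a_k(f) - a_k(g))` (newton).
-/

set_option autoImplicit false

open Finset

namespace Pool.Agent.Lib.MP_7ab245_nt.QS

open Pool.Agent.Lib.MP_7ab245_nt.LogVar Pool.Agent.Lib.MP_7ab245_nt.Cnt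
open Pool.Agent.Lib.MP_7ab245_nt.QC

theorem wro (n : ℕ) (ε : ℝ) (f g : Polynomial ℤ) (h0 : f.coeff 0 ≠ 0) (k : ℕ) (hk : 1 ≤ k)
    (h : ∀ j < k, f.coeff j = g.coeff j) :
    ∑ i ∈ range (k + 1), (PowerSeries.coeff i (sf n ε f) * PowerSeries.coeff (k - i) (be n ε g) -
      PowerSeries.coeff (k - i) (be n ε f) * PowerSeries.coeff i (sf n ε g)) =
    (k : ℂ) * (f.coeff 0 : ℂ) * (mt n ε f : ℂ) * (mt n ε g : ℂ) *
      ((f.coeff k : ℂ) - (g.coeff k : ℂ)) := by
  have hg0 : g.coeff 0 ≠ 0 := by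
    rw [← h 0 (by omega)]; exact h0
  set D : PowerSeries ℂ := ld ((cx f : Polynomial ℂ) : PowerSeries ℂ) -
    ld ((cx g : Polynomial ℂ) : PowerSeries ℂ) with hD
  have hDc : ∀ j, PowerSeries.coeff j D = -(PP j f - PP j g) := by
    intro j
    rw [hD, map_sub]
    unfold PP
    ring
  have h1 : ∑ i ∈ range (k + 1), (PowerSeries.coeff i (sf n ε f) *
        PowerSeries.coeff (k - i) (be n ε g) -
      PowerSeries.coeff (k - i) (be n ε f) * PowerSeries.coeff i (sf n ε g)) =
      PowerSeries.coeff k (D * (be n ε f * be n ε g)) := by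
    have e1 : D * (be n ε f * be n ε g) = sf n ε f * be n ε g - sf n ε g * be n ε f := by
      rw [hD]
      unfold sf
      ring
    rw [e1, map_sub, PowerSeries.coeff_mul, PowerSeries.coeff_mul,
      Finset.Nat.sum_antidiagonal_eq_sum_range_succ
        (fun i j => PowerSeries.coeff i (sf n ε f) * PowerSeries.coeff j (be n ε g)),
      Finset.Nat.sum_antidiagonal_eq_sum_range_succ
        (fun i j => PowerSeries.coeff i (sf n ε g) * PowerSeries.coeff j (be n ε f)),
      ← sum_sub_distrib]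
    refine sum_congr rfl fun i _ => ?_
    ring
  have h2 : PowerSeries.coeff k (D * (be n ε f * be n ε g)) =
      PowerSeries.coeff k D * PowerSeries.coeff 0 (be n ε f * be n ε g) := by
    rw [PowerSeries.coeff_mul, Finset.Nat.sum_antidiagonal_eq_sum_range_succ
      (fun i j => PowerSeries.coeff i D * PowerSeries.coeff j (be n ε f * be n ε g)),
      sum_range_succ, sum_eq_zero, zero_add, Nat.sub_self]
    intro i hi
    rw [mem_range] at hi
    rw [hDc, PP_congr f g h0 i k hi h]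
    simp
  have h3 : PowerSeries.coeff 0 (be n ε f * be n ε g) =
      (f.coeff 0 : ℂ) * (mt n ε f : ℂ) * ((f.coeff 0 : ℂ) * (mt n ε g : ℂ)) := by
    rw [PowerSeries.coeff_zero_eq_constantCoeff_apply, map_mul,
      ← PowerSeries.coeff_zero_eq_constantCoeff_apply,
      ← PowerSeries.coeff_zero_eq_constantCoeff_apply, be_zero n ε f h0, be_zero n ε g hg0,
      ← h 0 (by omega)]
  have h4 : (f.coeff 0 : ℂ) * PowerSeries.coeff k D =
      (k : ℂ) * ((f.coeff k : ℂ) - (g.coeff k : ℂ)) := by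
    obtain ⟨m, rfl⟩ : ∃ m, k = m + 1 := ⟨k - 1, by omega⟩
    have hf := newton f h0 (m + 1)
    have hg := newton g hg0 (m + 1)
    rw [sum_range_succ'] at hf hg
    rw [Nat.sub_zero] at hf hg
    have e1 : ∑ j ∈ range m, (f.coeff (j + 1) : ℂ) * PP (m + 1 - (j + 1)) f =
        ∑ j ∈ range m, (g.coeff (j + 1) : ℂ) * PP (m + 1 - (j + 1)) g := by
      refine sum_congr rfl (fun j hj => ?_)
      rw [mem_range] at hj
      rw [h (j + 1) (by omega), PP_congr f g h0 (m + 1 - (j + 1)) (m + 1) (by omega) h]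
    rw [e1] at hf
    rw [← h 0 (by omega)] at hg
    rw [hDc]
    linear_combination hg - hf
  rw [h1, h2, h3]
  linear_combination (f.coeff 0 : ℂ) * (mt n ε f : ℂ) * (mt n ε g : ℂ) * h4

end Pool.Agent.Lib.MP_7ab245_nt.QS
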