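import Pool.Agent.Lib.MP_7ab245_nt.QS.Defs

/-!
QS-Wt: prefix contractions and the decreasing weights `1/i²`.

PROOF. `we_mul_le`: `x_i = ‖coeff i (b*a)‖²`, `y_i = ‖coeff i a‖²`, `x_0 = y_0 = 0`, `D_m = ∑_{i≤m} (y_i - x_i) = pn a (m+1) - pn (b*a) (m+1) ≥ 0` (PC). By induction on `n ≥ 1`:
`∑_{i∈Icc 1 n} (y_i - x_i)/i² ≥ D_n / n²` (step: `D_n/n² ≥ D_n/(n+1)²`).
`we_add_le`: `‖x+y‖² ≤ 2‖x‖² + 2‖y‖²`. `we_xd`: `coeff i (xd a) = i * coeff i a`. `we_congr`: the coefficients of index `≤ n` of a product depend only on those of index `≤ n` of the factors.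
-/

set_option autoImplicit false

open Finset

namespace Pool.Agent.Lib.MP_7ab245_nt.QS

open Pool.Agent.Lib.MP_7ab245_nt.LogVar Pool.Agent.Lib.MP_7ab245_nt.Cnt
open Pool.Agent.Lib.MP_7ab245_nt.QC

theorem coeff_xd (a : PowerSeries ℂ) (i : ℕ) :
    PowerSeries.coeff i (xd a) = i * PowerSeries.coeff i a := by
  unfold xd
  rcases i with _ | i
  · rw [PowerSeries.coeff_zero_X_mul]; simp
  · rw [PowerSeries.coeff_succ_X_mul, PowerSeries.coeff_derivative]
    push_cast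
    ring

theorem we_nonneg (n : ℕ) (a : PowerSeries ℂ) : 0 ≤ we n a := by
  unfold we
  positivity

theorem we_mul_le {b : PowerSeries ℂ} (hb : PC b) (a : PowerSeries ℂ)
    (ha : PowerSeries.coeff 0 a = 0) (n : ℕ) : we n (b * a) ≤ we n a := by
  have hx0 : PowerSeries.coeff 0 (b * a) = 0 := by
    rw [PowerSeries.coeff_zero_eq_constantCoeff_apply, map_mul,
      ← PowerSeries.coeff_zero_eq_constantCoeff_apply, ← PowerSeries.coeff_zero_eq_constantCoeff_apply,
      ha, mul_zero]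
  have hD : ∀ m, 0 ≤ pn a (m + 1) - pn (b * a) (m + 1) := fun m => by linarith [hb a (m + 1)]
  have key : ∀ m, (pn a (m + 2) - pn (b * a) (m + 2)) / ((m + 1 : ℕ) : ℝ) ^ 2 ≤
      we (m + 1) a - we (m + 1) (b * a) := by
    intro m
    induction m with
    | zero =>
      unfold we pn
      rw [Finset.sum_range_succ, Finset.sum_range_succ, Finset.sum_range_succ,
        Finset.sum_range_succ, hx0, ha]
      simp
    | succ m ih =>
      have h1 : we (m + 1 + 1) a = we (m + 1) a +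
          ‖PowerSeries.coeff (m + 2) a‖ ^ 2 / ((m + 2 : ℕ) : ℝ) ^ 2 := by
        unfold we
        rw [Finset.sum_Icc_succ_top (by omega)]
      have h2 : we (m + 1 + 1) (b * a) = we (m + 1) (b * a) +
          ‖PowerSeries.coeff (m + 2) (b * a)‖ ^ 2 / ((m + 2 : ℕ) : ℝ) ^ 2 := by
        unfold we
        rw [Finset.sum_Icc_succ_top (by omega)]
      have h3 := pn_succ a (m + 2)
      have h4 := pn_succ (b * a) (m + 2)
      have h5 : (pn a (m + 2) - pn (b * a) (m + 2)) / ((m + 2 : ℕ) : ℝ) ^ 2 ≤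
          (pn a (m + 2) - pn (b * a) (m + 2)) / ((m + 1 : ℕ) : ℝ) ^ 2 := by
        apply div_le_div_of_nonneg_left (hD (m + 1)) (by positivity)
        have : ((m + 1 : ℕ) : ℝ) ≤ ((m + 2 : ℕ) : ℝ) := by exact_mod_cast (by omega)
        gcongr
      rw [h1, h2, h3, h4]
      have h6 : (pn a (m + 2) + ‖PowerSeries.coeff (m + 2) a‖ ^ 2 -
          (pn (b * a) (m + 2) + ‖PowerSeries.coeff (m + 2) (b * a)‖ ^ 2)) /
            ((m + 1 + 1 : ℕ) : ℝ) ^ 2 =
          (pn a (m + 2) - pn (b * a) (m + 2)) / ((m + 2 : ℕ) : ℝ) ^ 2 +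
          ‖PowerSeries.coeff (m + 2) a‖ ^ 2 / ((m + 2 : ℕ) : ℝ) ^ 2 -
          ‖PowerSeries.coeff (m + 2) (b * a)‖ ^ 2 / ((m + 2 : ℕ) : ℝ) ^ 2 := by
        ring
      rw [h6]
      linarith
  rcases n with _ | n
  · unfold we
    simp
  · have h := key n
    have h1 : 0 ≤ (pn a (n + 2) - pn (b * a) (n + 2)) / ((n + 1 : ℕ) : ℝ) ^ 2 :=
      div_nonneg (hD (n + 1)) (by positivity)
    linarith

theorem we_add_le (n : ℕ) (a b : PowerSeries ℂ) : we n (a + b) ≤ 2 * we n a + 2 * we n b := by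
  unfold we
  rw [mul_sum, mul_sum, ← sum_add_distrib]
  refine sum_le_sum fun i _ => ?_
  rw [map_add, ← mul_div_assoc, ← mul_div_assoc, ← add_div]
  apply div_le_div_of_nonneg_right _ (by positivity)
  have h := norm_add_le (PowerSeries.coeff i a) (PowerSeries.coeff i b)
  have h2 : ‖PowerSeries.coeff i a + PowerSeries.coeff i b‖ ^ 2 ≤
      (‖PowerSeries.coeff i a‖ + ‖PowerSeries.coeff i b‖) ^ 2 :=
    pow_le_pow_left₀ (norm_nonneg _) h 2
  nlinarith [sq_nonneg (‖PowerSeries.coeff i a‖ - ‖PowerSeries.coeff i b‖)]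

theorem we_smul (n : ℕ) (c : ℂ) (a : PowerSeries ℂ) :
    we n (PowerSeries.C c * a) = ‖c‖ ^ 2 * we n a := by
  unfold we
  rw [mul_sum]
  refine sum_congr rfl fun i _ => ?_
  rw [PowerSeries.coeff_C_mul, norm_mul]
  ring

theorem we_neg (n : ℕ) (a : PowerSeries ℂ) : we n (-a) = we n a := by
  unfold we
  refine sum_congr rfl fun i _ => ?_
  rw [map_neg, norm_neg]

theorem we_xd (n : ℕ) (a : PowerSeries ℂ) :
    we n (xd a) = ∑ i ∈ Icc 1 n, ‖PowerSeries.coeff i a‖ ^ 2 := by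
  unfold we
  refine sum_congr rfl fun i hi => ?_
  rw [mem_Icc] at hi
  have : (i : ℝ) ≠ 0 := by exact_mod_cast (by omega : i ≠ 0)
  rw [coeff_xd, norm_mul, Complex.norm_natCast]
  field_simp

private theorem Wt_sum (f : ℕ → ℝ) (n : ℕ) : ∑ i ∈ Icc 1 n, f i = ∑ i ∈ range n, f (i + 1) := by
  induction n with
  | zero => simp
  | succ n ih => rw [sum_Icc_succ_top (by omega), ih, sum_range_succ]

/-- the energy of a prefix contraction -/
theorem we_xd_le {b : PowerSeries ℂ} (hb : PC b) (n : ℕ) :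
    we n (xd b) ≤ 1 - ‖PowerSeries.coeff 0 b‖ ^ 2 := by
  rw [we_xd]
  refine le_trans (le_of_eq ?_) (PC_tail hb n)
  rw [Wt_sum (fun i => ‖PowerSeries.coeff i b‖ ^ 2) n]

theorem we_congr (n : ℕ) (b a a' : PowerSeries ℂ)
    (h : ∀ i ≤ n, PowerSeries.coeff i a = PowerSeries.coeff i a') : we n (b * a) = we n (b * a') := by
  unfold we
  refine sum_congr rfl fun i hi => ?_
  rw [mem_Icc] at hi
  rw [PowerSeries.coeff_mul, PowerSeries.coeff_mul]
  have : ∑ p ∈ antidiagonal i, PowerSeries.coeff p.1 b * PowerSeries.coeff p.2 a =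
      ∑ p ∈ antidiagonal i, PowerSeries.coeff p.1 b * PowerSeries.coeff p.2 a' := by
    refine sum_congr rfl fun p hp => ?_
    rw [Finset.HasAntidiagonal.mem_antidiagonal] at hp
    rw [h p.2 (by omega)]
  rw [this]

end Pool.Agent.Lib.MP_7ab245_nt.QS
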